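import Pool.Agent.H5.FR2.Stmts

/-!
# Project URB (MP_f18ce0_lc): module CAP

The capacity of a semistable tuple is positive: spectral theorem for the two positive matrices,
and compactness of the set of pairs of unitary matrices.
-/

set_option autoImplicit false

namespace Pool.Agent.H5.FR2

open Finset Pool.Agent.H5.FR Pool.Agent.H80
open scoped ComplexOrder

private theorem cap_spec {X : Type} [Fintype X] [DecidableEq X] (P : Matrix X X ℂ) :
    ∃ (U : Matrix X X ℂ) (r : X → ℝ), U ∈ Matrix.unitaryGroup X ℂ ∧ (∀ i, 0 ≤ r i) ∧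
      P.conjTranspose * P = U * Matrix.diagonal (fun i => (r i : ℂ)) * U.conjTranspose ∧
      ∏ i, r i = ‖P.det‖ ^ 2 := by
  have hps : (P.conjTranspose * P).PosSemidef := Matrix.posSemidef_conjTranspose_mul_self P
  have hA := hps.isHermitian
  refine ⟨hA.eigenvectorUnitary, hA.eigenvalues, hA.eigenvectorUnitary.2,
    fun i => hps.eigenvalues_nonneg i, ?_, ?_⟩
  · have h := hA.spectral_theorem
    rw [Unitary.conjStarAlgAut_apply] at h
    exact h
  · have h := hA.det_eq_prod_eigenvalues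
    rw [Matrix.det_mul, Matrix.det_conjTranspose] at h
    have h2 : ((‖P.det‖ ^ 2 : ℝ) : ℂ) = ((∏ i, hA.eigenvalues i : ℝ) : ℂ) := by
      rw [Complex.ofReal_prod]
      refine Eq.trans ?_ h
      rw [Complex.star_def, ← Complex.normSq_eq_conj_mul_self, Complex.normSq_eq_norm_sq]
    exact (Complex.ofReal_injective h2).symm

/-- the weight of the entry -/
private noncomputable def cw {n : ℕ} {X Y : Type} [Fintype X] [Fintype Y]
    (B : Fin n → Matrix X Y ℂ) (U : Matrix X X ℂ) (V : Matrix Y Y ℂ) (i : X) (j : Y) : ℝ :=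
  ∑ a, ‖(U.conjTranspose * B a * V) i j‖ ^ 2

private theorem cw_nonneg {n : ℕ} {X Y : Type} [Fintype X] [Fintype Y]
    (B : Fin n → Matrix X Y ℂ) (U : Matrix X X ℂ) (V : Matrix Y Y ℂ) (i : X) (j : Y) :
    0 ≤ cw B U V i j := sum_nonneg fun _ _ => by positivity

private theorem cw_trace {n : ℕ} {X Y : Type} [Fintype X] [DecidableEq X] [Fintype Y]
    [DecidableEq Y] (B : Fin n → Matrix X Y ℂ) (P : Matrix X X ℂ) (Q : Matrix Y Y ℂ)
    (U : Matrix X X ℂ) (V : Matrix Y Y ℂ) (r : X → ℝ) (s : Y → ℝ)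
    (hP : P.conjTranspose * P = U * Matrix.diagonal (fun i => (r i : ℂ)) * U.conjTranspose)
    (hQ : Q * Q.conjTranspose = V * Matrix.diagonal (fun i => (s i : ℂ)) * V.conjTranspose) :
    tr1 (KK (fun a => P * B a * Q)) = ∑ i, ∑ j, r i * s j * cw B U V i j := by
  have h1 : ∀ a, ((P * B a * Q) * (P * B a * Q).conjTranspose).trace =
      ((∑ i, ∑ j, r i * s j * ‖(U.conjTranspose * B a * V) i j‖ ^ 2 : ℝ) : ℂ) := by
    intro a
    have e1 : ((P * B a * Q) * (P * B a * Q).conjTranspose).trace =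
        ((P.conjTranspose * P) * B a * (Q * Q.conjTranspose) * (B a).conjTranspose).trace := by
      rw [Matrix.conjTranspose_mul, Matrix.conjTranspose_mul]
      rw [show (P * B a * Q) * (Q.conjTranspose * ((B a).conjTranspose * P.conjTranspose)) =
        (P * B a * (Q * Q.conjTranspose) * (B a).conjTranspose) * P.conjTranspose by
          simp only [Matrix.mul_assoc]]
      rw [Matrix.trace_mul_comm]
      simp only [Matrix.mul_assoc]
    have e2 : ((P.conjTranspose * P) * B a * (Q * Q.conjTranspose) * (B a).conjTranspose).trace =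
        (Matrix.diagonal (fun i => (r i : ℂ)) * (U.conjTranspose * B a * V) *
          Matrix.diagonal (fun i => (s i : ℂ)) *
          (U.conjTranspose * B a * V).conjTranspose).trace := by
      rw [hP, hQ]
      rw [Matrix.conjTranspose_mul, Matrix.conjTranspose_mul, Matrix.conjTranspose_conjTranspose]
      rw [show U * Matrix.diagonal (fun i => (r i : ℂ)) * U.conjTranspose * B a *
        (V * Matrix.diagonal (fun i => (s i : ℂ)) * V.conjTranspose) * (B a).conjTranspose =
        U * (Matrix.diagonal (fun i => (r i : ℂ)) * U.conjTranspose * B a *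
        (V * Matrix.diagonal (fun i => (s i : ℂ)) * V.conjTranspose) * (B a).conjTranspose) by
          simp only [Matrix.mul_assoc]]
      rw [Matrix.trace_mul_comm]
      simp only [Matrix.mul_assoc]
    rw [e1, e2]
    simp only [Matrix.trace, Matrix.diag_apply]
    rw [Complex.ofReal_sum]
    refine sum_congr rfl fun i _ => ?_
    rw [Matrix.mul_apply, Complex.ofReal_sum]
    refine sum_congr rfl fun j _ => ?_
    rw [Matrix.mul_diagonal, Matrix.diagonal_mul, Matrix.conjTranspose_apply]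
    have e3 : ∀ z : ℂ, z * star z = ((‖z‖ ^ 2 : ℝ) : ℂ) := by
      intro z
      rw [Complex.star_def, Complex.mul_conj, Complex.normSq_eq_norm_sq]
    have e4 := e3 ((U.conjTranspose * B a * V) i j)
    calc (r i : ℂ) * (U.conjTranspose * B a * V) i j * (s j : ℂ) *
        star ((U.conjTranspose * B a * V) i j) =
        (r i : ℂ) * (s j : ℂ) * ((U.conjTranspose * B a * V) i j *
        star ((U.conjTranspose * B a * V) i j)) := by ring
      _ = _ := by rw [e4]; push_cast; ring
  unfold tr1 KK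
  rw [Matrix.trace_sum, Complex.re_sum]
  simp only [h1, Complex.ofReal_re]
  rw [sum_comm]
  refine sum_congr rfl fun i _ => ?_
  rw [sum_comm]
  refine sum_congr rfl fun j _ => ?_
  unfold cw
  rw [mul_sum]

private theorem cap_prod {X Y : Type} [Fintype X] [Fintype Y] (r : X → ℝ) (s : Y → ℝ)
    (w : X → Y → ℝ) (hr : ∀ i, 0 ≤ r i) (hs : ∀ j, 0 ≤ s j) (hw : ∀ i j, 0 ≤ w i j)
    (m : X → Y → ℕ) (h1 : ∀ i, ∑ j, m i j = Fintype.card Y)
    (h2 : ∀ j, ∑ i, m i j = Fintype.card X) :
    (∏ i, r i) ^ (Fintype.card Y) * (∏ j, s j) ^ (Fintype.card X) *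
      (∏ i, ∏ j, w i j ^ m i j) ≤
      (∑ i, ∑ j, r i * s j * w i j) ^ (Fintype.card X * Fintype.card Y) := by
  have hle : ∀ i j, r i * s j * w i j ≤ ∑ i, ∑ j, r i * s j * w i j := by
    intro i j
    have a1 : r i * s j * w i j ≤ ∑ j, r i * s j * w i j :=
      single_le_sum (f := fun j => r i * s j * w i j)
        (fun j _ => mul_nonneg (mul_nonneg (hr i) (hs j)) (hw i j)) (mem_univ j)
    have a2 : ∑ j, r i * s j * w i j ≤ ∑ i, ∑ j, r i * s j * w i j :=
      single_le_sum (f := fun i => ∑ j, r i * s j * w i j)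
        (fun i _ => sum_nonneg fun j _ => mul_nonneg (mul_nonneg (hr i) (hs j)) (hw i j))
        (mem_univ i)
    exact a1.trans a2
  have e1 : (∏ i, r i) ^ (Fintype.card Y) * (∏ j, s j) ^ (Fintype.card X) *
      (∏ i, ∏ j, w i j ^ m i j) = ∏ i, ∏ j, (r i * s j * w i j) ^ m i j := by
    have f1 : (∏ i, r i) ^ (Fintype.card Y) = ∏ i, ∏ j, r i ^ m i j := by
      rw [← prod_pow]
      refine prod_congr rfl fun i _ => ?_
      rw [prod_pow_eq_pow_sum, h1 i]
    have f2 : (∏ j, s j) ^ (Fintype.card X) = ∏ i, ∏ j, s j ^ m i j := by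
      rw [prod_comm, ← prod_pow]
      refine prod_congr rfl fun j _ => ?_
      rw [prod_pow_eq_pow_sum, h2 j]
    rw [f1, f2, ← prod_mul_distrib, ← prod_mul_distrib]
    refine prod_congr rfl fun i _ => ?_
    rw [← prod_mul_distrib, ← prod_mul_distrib]
    refine prod_congr rfl fun j _ => ?_
    rw [mul_pow, mul_pow]
  rw [e1]
  have e2 : (∑ i, ∑ j, r i * s j * w i j) ^ (Fintype.card X * Fintype.card Y) =
      ∏ i, ∏ j, (∑ i, ∑ j, r i * s j * w i j) ^ m i j := by
    have : Fintype.card X * Fintype.card Y = ∑ i, ∑ j, m i j := by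
      simp [h1]
    rw [this, ← prod_pow_eq_pow_sum]
    refine prod_congr rfl fun i _ => ?_
    rw [prod_pow_eq_pow_sum]
  rw [e2]
  refine prod_le_prod (fun i _ => prod_nonneg fun j _ =>
    pow_nonneg (mul_nonneg (mul_nonneg (hr i) (hs j)) (hw i j)) _) fun i _ => ?_
  refine prod_le_prod (fun j _ =>
    pow_nonneg (mul_nonneg (mul_nonneg (hr i) (hs j)) (hw i j)) _) fun j _ => ?_
  exact pow_le_pow_left₀ (mul_nonneg (mul_nonneg (hr i) (hs j)) (hw i j)) (hle i j) _

private theorem cap_compact (X : Type) [Fintype X] [DecidableEq X] :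
    IsCompact {U : Matrix X X ℂ | U ∈ Matrix.unitaryGroup X ℂ} := by
  have hbox : IsCompact (Set.pi Set.univ (fun _ : X => Set.pi Set.univ
      (fun _ : X => Metric.closedBall (0 : ℂ) 1))) :=
    isCompact_univ_pi fun _ => isCompact_univ_pi fun _ => isCompact_closedBall 0 1
  have hcl : IsClosed {U : Matrix X X ℂ | U ∈ Matrix.unitaryGroup X ℂ} := by
    have : {U : Matrix X X ℂ | U ∈ Matrix.unitaryGroup X ℂ} =
        {U : Matrix X X ℂ | U * U.conjTranspose = 1} := by
      ext U
      exact Matrix.mem_unitaryGroup_iff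
    rw [this]
    exact isClosed_eq (by fun_prop) continuous_const
  refine IsCompact.of_isClosed_subset hbox hcl ?_
  intro U hU i _ j _
  exact mem_closedBall_zero_iff.mpr (entry_norm_bound_of_unitary hU i j)

theorem cap_thm (h : CPOStmt) : CAPStmt := by
  classical
  intro n X Y _ _ _ _ _ _ B hB
  -- the finite set of matrices of multiplicities
  set M : Finset (X → Y → ℕ) := (Fintype.piFinset fun _ : X => Fintype.piFinset fun _ : Y =>
    range (Fintype.card Y + 1)).filter (fun m => (∀ i, ∑ j, m i j = Fintype.card Y) ∧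
      (∀ j, ∑ i, m i j = Fintype.card X)) with hM
  set Φ : Matrix X X ℂ × Matrix Y Y ℂ → ℝ := fun W =>
    ∑ m ∈ M, ∏ i, ∏ j, cw B W.1 W.2 i j ^ m i j with hΦ
  set K : Set (Matrix X X ℂ × Matrix Y Y ℂ) :=
    {U : Matrix X X ℂ | U ∈ Matrix.unitaryGroup X ℂ} ×ˢ
    {V : Matrix Y Y ℂ | V ∈ Matrix.unitaryGroup Y ℂ} with hK
  have hKc : IsCompact K := (cap_compact X).prod (cap_compact Y)
  have hKne : K.Nonempty := ⟨(1, 1), one_mem (Matrix.unitaryGroup X ℂ),
    one_mem (Matrix.unitaryGroup Y ℂ)⟩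
  have hcont : Continuous Φ := by
    refine continuous_finsetSum _ fun m _ => ?_
    refine continuous_finsetProd _ fun i _ => ?_
    refine continuous_finsetProd _ fun j _ => ?_
    refine Continuous.pow ?_ _
    unfold cw
    refine continuous_finsetSum _ fun a _ => ?_
    refine Continuous.pow ?_ _
    refine Continuous.norm ?_
    have : Continuous fun W : Matrix X X ℂ × Matrix Y Y ℂ =>
        W.1.conjTranspose * B a * W.2 := by fun_prop
    exact this.matrix_elem i j
  have hpos : ∀ W ∈ K, 0 < Φ W := by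
    intro W hW
    obtain ⟨m, h1, h2, h3⟩ := h n X Y B hB W.1 W.2 hW.1 hW.2
    have hmM : m ∈ M := by
      rw [hM, mem_filter]
      refine ⟨?_, h1, h2⟩
      rw [Fintype.mem_piFinset]
      intro i
      rw [Fintype.mem_piFinset]
      intro j
      rw [mem_range]
      have : m i j ≤ ∑ j, m i j := single_le_sum (f := fun j => m i j)
        (fun _ _ => Nat.zero_le _) (mem_univ j)
      rw [h1] at this
      omega
    refine sum_pos' (fun m _ => prod_nonneg fun i _ => prod_nonneg fun j _ =>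
      pow_nonneg (cw_nonneg _ _ _ _ _) _) ⟨m, hmM, ?_⟩
    refine prod_pos fun i _ => prod_pos fun j _ => ?_
    by_cases hz : m i j = 0
    · rw [hz, pow_zero]; exact one_pos
    · obtain ⟨a, ha⟩ := h3 i j hz
      refine pow_pos ?_ _
      unfold cw
      refine sum_pos' (fun _ _ => by positivity) ⟨a, mem_univ _, ?_⟩
      have := norm_pos_iff.mpr ha
      positivity
  obtain ⟨W₀, hW₀, hmin⟩ := hKc.exists_isMinOn hKne hcont.continuousOn
  have hc0 := hpos W₀ hW₀
  have hMne : M.Nonempty := by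
    obtain ⟨m, hm⟩ : ∃ m, m ∈ M := by
      by_contra hcon
      push Not at hcon
      have : M = ∅ := Finset.eq_empty_of_forall_notMem hcon
      rw [hΦ] at hc0
      simp only [this, sum_empty, lt_irrefl] at hc0
    exact ⟨m, hm⟩
  have hMpos : 0 < (M.card : ℝ) := by exact_mod_cast hMne.card_pos
  refine ⟨Φ W₀ / M.card, div_pos hc0 hMpos, ?_⟩
  intro P Q
  obtain ⟨U, r, hU, hr, hUr, hprodr⟩ := cap_spec P
  obtain ⟨V, s, hV, hs, hVs, hprods⟩ := cap_spec Q.conjTranspose
  rw [Matrix.conjTranspose_conjTranspose] at hVs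
  rw [Matrix.det_conjTranspose, norm_star] at hprods
  rw [cw_trace B P Q U V r s hUr hVs, ← hprodr, ← hprods]
  have hmin' : Φ W₀ ≤ Φ (U, V) := hmin (show (U, V) ∈ K from ⟨hU, hV⟩)
  have hA : 0 ≤ (∏ i, r i) ^ (Fintype.card Y) * (∏ j, s j) ^ (Fintype.card X) :=
    mul_nonneg (pow_nonneg (prod_nonneg fun i _ => hr i) _)
      (pow_nonneg (prod_nonneg fun j _ => hs j) _)
  have hsum : (∏ i, r i) ^ (Fintype.card Y) * (∏ j, s j) ^ (Fintype.card X) * Φ (U, V) ≤
      M.card * (∑ i, ∑ j, r i * s j * cw B U V i j) ^ (Fintype.card X * Fintype.card Y) := by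
    rw [hΦ, mul_sum, ← nsmul_eq_mul]
    refine sum_le_card_nsmul _ _ _ fun m hm => ?_
    rw [hM, mem_filter] at hm
    exact cap_prod r s (cw B U V) hr hs (fun i j => cw_nonneg _ _ _ _ _) m hm.2.1 hm.2.2
  have h3 : Φ W₀ * ((∏ i, r i) ^ (Fintype.card Y) * (∏ j, s j) ^ (Fintype.card X)) ≤
      M.card * (∑ i, ∑ j, r i * s j * cw B U V i j) ^ (Fintype.card X * Fintype.card Y) := by
    refine le_trans ?_ hsum
    rw [mul_comm]
    exact mul_le_mul_of_nonneg_left hmin' hA
  rw [mul_assoc, div_mul_eq_mul_div, div_le_iff₀ hMpos]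
  linarith [h3]

end Pool.Agent.H5.FR2
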