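import Pool.Agent.H5.FR2.Stmts

set_option autoImplicit false

namespace Pool.Agent.H5.FR2

open Finset Pool.Agent.H5.FR Pool.Agent.H80

/-- HAL: integral fractional perfect matchings from the Hall condition -/
theorem hal_thm : HALStmt := by
  intro X Y _ _ _ _ G hG
  classical
  let t : Y × Fin (Fintype.card X) → Finset (X × Fin (Fintype.card Y)) := fun p =>
    (univ.filter fun i => G i p.1) ×ˢ univ
  have hHall : ∀ s : Finset (Y × Fin (Fintype.card X)), s.card ≤ (s.biUnion t).card := by
    intro s
    let J : Finset Y := s.image Prod.fst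
    have h1 : s.card ≤ Fintype.card X * J.card := by
      have h2 : s ⊆ J ×ˢ (univ : Finset (Fin (Fintype.card X))) := by
        intro p hp
        rw [Finset.mem_product]
        exact ⟨Finset.mem_image_of_mem _ hp, Finset.mem_univ _⟩
      refine (Finset.card_le_card h2).trans (le_of_eq ?_)
      rw [Finset.card_product, Finset.card_univ, Fintype.card_fin, mul_comm]
    have h3 : s.biUnion t = (univ.filter fun i => ∃ j ∈ J, G i j) ×ˢ univ := by
      ext ⟨i, k⟩
      simp only [t, J, Finset.mem_biUnion, Finset.mem_product, Finset.mem_filter,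
        Finset.mem_univ, true_and, and_true, Finset.mem_image]
      constructor
      · rintro ⟨p, hp, h⟩
        exact ⟨p.1, ⟨p, hp, rfl⟩, h⟩
      · rintro ⟨j, ⟨p, hp, rfl⟩, h⟩
        exact ⟨p, hp, h⟩
    have h4 : Nat.card {i // ∃ j ∈ J, G i j} = (univ.filter fun i => ∃ j ∈ J, G i j).card := by
      rw [Nat.card_eq_fintype_card, Fintype.card_subtype]
    rw [h3, Finset.card_product, Finset.card_univ, Fintype.card_fin, mul_comm, ← h4]
    exact h1.trans (hG J)
  obtain ⟨f, hf, hft⟩ := (Finset.all_card_le_biUnion_card_iff_exists_injective t).1 hHall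
  have hbij : Function.Bijective f := by
    rw [Fintype.bijective_iff_injective_and_card]
    refine ⟨hf, ?_⟩
    rw [Fintype.card_prod, Fintype.card_prod, Fintype.card_fin, Fintype.card_fin, mul_comm]
  have hfG : ∀ p, G (f p).1 p.1 := by
    intro p
    have := hft p
    simp only [t, Finset.mem_product, Finset.mem_filter, Finset.mem_univ, true_and, and_true]
      at this
    exact this
  refine ⟨fun i j => (univ.filter fun s : Fin (Fintype.card X) => (f (j, s)).1 = i).card,
    ?_, ?_, ?_⟩
  · intro i
    have h1 : ∑ j, (univ.filter fun s : Fin (Fintype.card X) => (f (j, s)).1 = i).card =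
        (univ.filter fun p : Y × Fin (Fintype.card X) => (f p).1 = i).card := by
      simp only [Finset.card_filter]
      rw [← Finset.univ_product_univ, Finset.sum_product]
    have h2 : (univ.filter fun p : Y × Fin (Fintype.card X) => (f p).1 = i).card =
        (univ.filter fun p : X × Fin (Fintype.card Y) => p.1 = i).card := by
      apply Finset.card_bij (fun p _ => f p)
      · intro p hp
        rw [Finset.mem_filter] at hp ⊢
        exact ⟨Finset.mem_univ _, hp.2⟩
      · intro p _ q _ h
        exact hf h
      · intro q hq
        obtain ⟨p, rfl⟩ := hbij.2 q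
        rw [Finset.mem_filter] at hq
        exact ⟨p, Finset.mem_filter.2 ⟨Finset.mem_univ _, hq.2⟩, rfl⟩
    have h3 : (univ.filter fun p : X × Fin (Fintype.card Y) => p.1 = i) =
        {i} ×ˢ (univ : Finset (Fin (Fintype.card Y))) := by
      ext p
      rw [Finset.mem_filter, Finset.mem_product, Finset.mem_singleton]
      simp only [Finset.mem_univ, true_and, and_true]
    rw [h1, h2, h3, Finset.card_product, Finset.card_singleton, one_mul, Finset.card_univ,
      Fintype.card_fin]
  · intro j
    have h1 := Finset.card_eq_sum_card_fiberwise (s := (univ : Finset (Fin (Fintype.card X))))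
      (t := (univ : Finset X)) (f := fun s => (f (j, s)).1) (fun _ _ => Finset.mem_coe.2 (Finset.mem_univ _))
    rw [Finset.card_univ, Fintype.card_fin] at h1
    exact h1.symm
  · intro i j hm
    obtain ⟨s, hs⟩ := Finset.card_ne_zero.1 hm
    rw [Finset.mem_filter] at hs
    have := hfG (j, s)
    rw [hs.2] at this
    exact this

end Pool.Agent.H5.FR2
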